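import Mathlib
import Pool.Agent.Y373.SF.All

/-!
# Largest sum-free subsets of the grid `[N]^d` for large `d` (MP_0cd883_co)

For large `d` the largest sum-free subset of `[N]^d` misses only an exponentially small proportion
of the grid: this proportion lies between `ρ^d`, for any fixed `ρ < e^(1/2)/2 = 0.8243...`, and
`2 * 0.842^d`. The lower bound holds for every sum-free set.
-/

set_option autoImplicit false

namespace Pool.Agent.Results.MP_0cd883_co.ExponentialComplement

/-- The grid `[N]^d`: the functions `Fin d → ℕ` with all values in `{1, ..., N}`. -/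
def grid (d N : ℕ) : Finset (Fin d → ℕ) := Fintype.piFinset fun _ => Finset.Icc 1 N

/-- `A` is sum-free: no `x, y, z ∈ A` (not necessarily distinct) satisfy `x + y = z`. -/
def SumFree {d : ℕ} (A : Finset (Fin d → ℕ)) : Prop := ∀ x ∈ A, ∀ y ∈ A, x + y ∉ A

/-- `s_d(N)`: the largest size of a sum-free subset of `[N]^d`. -/
noncomputable def s (d N : ℕ) : ℕ := sSup {k : ℕ | ∃ A ⊆ grid d N, SumFree A ∧ A.card = k}

/-- **The complement of a largest sum-free subset of `[N]^d` is exponentially small in `d`, and not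
smaller than exponentially small.** For every `ρ < e^(1/2)/2` and all large `d`, if `N` is large in
terms of `d`, then `N^d - s_d(N) ≥ (ρ N)^d`. For all large `N` and every `d`,
`N^d - s_d(N) ≤ 2 (0.842 N)^d`. -/
theorem result :
    (∀ ρ : ℝ, 0 < ρ → ρ < Real.exp (1 / 2) / 2 → ∃ d₀ : ℕ, ∀ d ≥ d₀, ∃ N₀ : ℕ, ∀ N ≥ N₀,
      (ρ * (N : ℝ)) ^ d ≤ (N : ℝ) ^ d - (s d N : ℝ)) ∧
    (∃ N₀ : ℕ, ∀ N ≥ N₀, ∀ d : ℕ,
      (N : ℝ) ^ d - (s d N : ℝ) ≤ 2 * (0.842 * (N : ℝ)) ^ d) :=
  Pool.Agent.Y373.SF.final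

end Pool.Agent.Results.MP_0cd883_co.ExponentialComplement
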